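import Mathlib

set_option autoImplicit false

namespace Pool.Agent.Results.MP_b67aea_co.Four

/-- The parts of `pre_k`: products of `k` parts (chosen by position), with multiplicity. -/
def pre (k : ℕ) (L : Multiset ℕ) : Multiset ℕ := (L.powersetCard k).map Multiset.prod

lemma pre_fin {ι : Type} [Fintype ι] [DecidableEq ι] (f : ι → ℕ) (k : ℕ) :
    pre k (Finset.univ.val.map f) =
      ((Finset.univ : Finset ι).powersetCard k).val.map fun S => ∏ i ∈ S, f i := by
  unfold pre
  rw [Multiset.powersetCard_map, ← Finset.map_val_val_powersetCard, Multiset.map_map,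
    Multiset.map_map]
  rfl

lemma dual_fin {ι : Type} [Fintype ι] [DecidableEq ι] (f g : ι → ℕ) (k c : ℕ)
    (hc : Fintype.card ι = 2 * k) (hfg : ∀ i, f i * g i = c) (hpos : 0 < c)
    (hp : ∏ i, f i = c ^ k) :
    pre k (Finset.univ.val.map g) = pre k (Finset.univ.val.map f) := by
  rw [pre_fin, pre_fin]
  have hm : ((Finset.univ : Finset ι).powersetCard k).map ⟨compl, compl_injective⟩ =
      (Finset.univ : Finset ι).powersetCard k := by
    ext S
    simp only [Finset.mem_map, Finset.mem_powersetCard, Finset.subset_univ, true_and,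
      Function.Embedding.coeFn_mk]
    constructor
    · rintro ⟨T, hT, rfl⟩
      rw [Finset.card_compl]; omega
    · intro hS
      exact ⟨Sᶜ, by rw [Finset.card_compl]; omega, compl_compl S⟩
  conv_rhs => rw [← hm, Finset.map_val, Multiset.map_map]
  apply Multiset.map_congr rfl
  intro S hS
  have hS' : S.card = k := (Finset.mem_powersetCard.1 hS).2
  have h1 : (∏ i ∈ S, f i) * ∏ i ∈ S, g i = c ^ k := by
    rw [← Finset.prod_mul_distrib, Finset.prod_congr rfl fun i _ => hfg i, Finset.prod_const, hS']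
  have h2 : (∏ i ∈ S, f i) * ∏ i ∈ Sᶜ, f i = c ^ k := by
    rw [Finset.prod_mul_prod_compl, hp]
  have h3 : 0 < ∏ i ∈ S, f i := by
    apply Nat.pos_of_ne_zero
    intro h0
    rw [h0, zero_mul] at h1
    exact (pow_pos hpos k).ne h1
  exact Nat.eq_of_mul_eq_mul_left h3 (h1.trans h2.symm)

/-- Duality for a multiset of pairs with constant product. -/
lemma dual (P : Multiset (ℕ × ℕ)) (k c : ℕ) (hc : P.card = 2 * k)
    (hfg : ∀ p ∈ P, p.1 * p.2 = c) (hpos : 0 < c) (hp : (P.map Prod.fst).prod = c ^ k) :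
    pre k (P.map Prod.snd) = pre k (P.map Prod.fst) := by
  classical
  have e : ∀ h : ℕ × ℕ → ℕ, P.map h =
      (Finset.univ : Finset P.ToType).val.map fun x : P.ToType => h x.1 := by
    intro h
    conv_lhs => rw [← Multiset.map_univ_coe P, Multiset.map_map]
    rfl
  rw [e Prod.fst] at hp
  rw [e Prod.fst, e Prod.snd]
  exact dual_fin (fun x : P.ToType => x.1.1) (fun x : P.ToType => x.1.2) k c
    (by rw [Multiset.card_coe, hc]) (fun x => hfg _ (Multiset.coe_mem)) hpos hp

lemma repr (A B K : ℕ) (hA : 0 < A) (h : Nat.Coprime A B) :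
    ∃ M, ∀ n ≥ M, ∃ s t, 1 ≤ t ∧ K * t < s ∧ n = s * A + t * B := by
  refine ⟨A * B + (K * A + 1) * A, fun n hn => ?_⟩
  obtain ⟨t, ht1, htA, ht⟩ : ∃ t, 1 ≤ t ∧ t ≤ A ∧ t * B ≡ n [MOD A] := by
    obtain ⟨u, hu⟩ := Nat.exists_mul_mod_eq_of_coprime n h.symm hA.ne'
    rcases Nat.eq_zero_or_pos u with h0 | h0
    · refine ⟨A, hA, le_rfl, ?_⟩
      have := hu.2
      rw [h0, mul_zero, Nat.zero_mod] at this
      unfold Nat.ModEq
      rw [← this, Nat.mul_mod_right]
    · exact ⟨u, h0, hu.1.le, by rw [mul_comm]; exact hu.2⟩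
  have hle : t * B ≤ A * B := Nat.mul_le_mul_right B htA
  obtain ⟨s, hs⟩ := (Nat.modEq_iff_dvd' (by omega : t * B ≤ n)).1 ht
  refine ⟨s, t, ht1, ?_, by rw [mul_comm s A]; omega⟩
  have h1 : A * (K * A + 1) ≤ A * s := by rw [← hs, mul_comm A (K * A + 1)]; omega
  have h2 := Nat.le_of_mul_le_mul_left h1 hA
  have h3 : K * t ≤ K * A := Nat.mul_le_mul_left K htA
  omega

/-- The eight basic pairs. -/
def base (s t x : ℕ) : Multiset (ℕ × ℕ) :=
  {(15 * s, 112 * x * t), (28 * s, 60 * x * t), (28 * s, 60 * x * t), (48 * s, 35 * x * t),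
   (105 * x * t, 16 * s), (80 * x * t, 21 * s), (42 * x * t, 40 * s), (40 * x * t, 42 * s)}

lemma build (k s t x e n : ℕ) (Q : Multiset (ℕ × ℕ)) (hx : 0 < x) (ht : 1 ≤ t)
    (hs : 1680 * x * t < s) (hk : k = 4 + Q.card)
    (hQ : ∀ p ∈ Q, p.1 * p.2 = 1680 * x * s * t)
    (he : (Q.map fun p => p.1 + p.2).sum = e) (hn : n = 119 * s + 267 * x * t + e) :
    ∃ p q : Nat.Partition n, p ≠ q ∧ k < p.parts.card ∧ k < q.parts.card ∧
      pre k p.parts = pre k q.parts := by
  set c := 1680 * x * s * t with hc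
  have hs0 : 0 < s := by omega
  have hcpos : 0 < c := by positivity
  set P := base s t x + (Q + Q.map Prod.swap) with hP
  have hall : ∀ p ∈ P, p.1 * p.2 = c := by
    intro p hp
    rcases Multiset.mem_add.1 hp with hp | hp
    · simp only [base, Multiset.insert_eq_cons, Multiset.mem_cons, Multiset.mem_singleton] at hp
      rcases hp with rfl | rfl | rfl | rfl | rfl | rfl | rfl | rfl <;> (rw [hc]; ring)
    · rcases Multiset.mem_add.1 hp with hp | hp
      · exact hQ p hp
      · obtain ⟨q, hq, rfl⟩ := Multiset.mem_map.1 hp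
        rw [← hQ q hq]; simp [mul_comm]
  have hcard : P.card = 2 * k := by
    simp [hP, base, hk]; omega
  have hprodQ : (Q.map Prod.fst).prod * (Q.map Prod.snd).prod = c ^ Q.card := by
    rw [← Multiset.prod_map_mul, Multiset.map_congr rfl hQ, Multiset.map_const',
      Multiset.prod_replicate]
  have hsumQ : (Q.map Prod.fst).sum + (Q.map Prod.snd).sum = e := by
    rw [← Multiset.sum_map_add, he]
  have f1 : P.map Prod.fst = (base s t x).map Prod.fst + (Q.map Prod.fst + Q.map Prod.snd) := by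
    simp [hP, Multiset.map_map]
  have f2 : P.map Prod.snd = (base s t x).map Prod.snd + (Q.map Prod.fst + Q.map Prod.snd) := by
    simp [hP, Multiset.map_map, add_comm]
  have hprod : (P.map Prod.fst).prod = c ^ k := by
    rw [f1, Multiset.prod_add, Multiset.prod_add, hprodQ, hk, pow_add]
    congr 1
    simp [base, hc]; ring
  have pos1 : ∀ {i}, i ∈ P.map Prod.fst → 0 < i := by
    intro i hi
    obtain ⟨p, hp, rfl⟩ := Multiset.mem_map.1 hi
    exact Nat.pos_of_mul_pos_right (hall p hp ▸ hcpos)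
  have pos2 : ∀ {i}, i ∈ P.map Prod.snd → 0 < i := by
    intro i hi
    obtain ⟨p, hp, rfl⟩ := Multiset.mem_map.1 hi
    exact Nat.pos_of_mul_pos_left (hall p hp ▸ hcpos)
  have s1 : (P.map Prod.fst).sum = n := by
    rw [f1, Multiset.sum_add, Multiset.sum_add, hsumQ, hn]; simp [base]; ring
  have s2 : (P.map Prod.snd).sum = n := by
    rw [f2, Multiset.sum_add, Multiset.sum_add, hsumQ, hn]; simp [base]; ring
  refine ⟨⟨_, pos1, s1⟩, ⟨_, pos2, s2⟩, ?_, ?_, ?_, (dual P k c hcard hall hcpos hprod).symm⟩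
  · intro h
    have h1 : P.map Prod.fst = P.map Prod.snd := congrArg Nat.Partition.parts h
    rw [f1, f2, add_left_inj] at h1
    have h2 : 48 * s ∈ (base s t x).map Prod.snd := by rw [← h1]; simp [base]
    simp only [base, Multiset.insert_eq_cons, Multiset.map_cons, Multiset.map_singleton,
      Multiset.mem_cons, Multiset.mem_singleton] at h2
    have e1 : ∀ a : ℕ, a * x * t = a * (x * t) := fun a => mul_assoc _ _ _
    simp only [e1] at h2 hs
    omega
  · simp only [Multiset.card_map, hcard]; omega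
  · simp only [Multiset.card_map, hcard]; omega

theorem result (k : ℕ) (hk : 4 ≤ k) :
    ∃ M : ℕ, ∀ n ≥ M, ∃ p q : Nat.Partition n, p ≠ q ∧ k < p.parts.card ∧ k < q.parts.card ∧
      pre k p.parts = pre k q.parts := by
  rcases Nat.eq_or_lt_of_le hk with rfl | hk
  · obtain ⟨M, hM⟩ := repr 119 267 1680 (by norm_num) (by norm_num)
    refine ⟨M, fun n hn => ?_⟩
    obtain ⟨s, t, ht, hs, rfl⟩ := hM n hn
    exact build 4 s t 1 0 _ 0 one_pos ht (by omega) rfl (by simp) rfl (by ring)
  · obtain ⟨i, rfl⟩ : ∃ i, k = 5 + i := ⟨k - 5, by omega⟩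
    obtain ⟨x, hx, hx2⟩ : ∃ x, 0 < x ∧ x + 1679 = (119 + i) * (266 + 1680 * i) :=
      ⟨(119 + i) * (266 + 1680 * i) - 1679, by
        have : 119 * 266 ≤ (119 + i) * (266 + 1680 * i) := Nat.mul_le_mul (by omega) (by omega)
        omega⟩
    have hB : (267 + 1680 * i) * x + 1680 = 1 + (119 + i + x) * (266 + 1680 * i) := by
      rw [add_mul (119 + i) x, ← hx2]; ring
    have hco : Nat.Coprime (119 + i + x) ((267 + 1680 * i) * x + 1680) := by
      rw [hB, Nat.coprime_add_mul_left_right]; exact Nat.coprime_one_right _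
    obtain ⟨M, hM⟩ := repr _ _ (1680 * x) (by omega) hco
    refine ⟨M, fun n hn => ?_⟩
    obtain ⟨s, t, ht, hs, rfl⟩ := hM n hn
    refine build (5 + i) s t x (x * s + 1680 * t + i * (s + 1680 * x * t)) _
      ((x * s, 1680 * t) ::ₘ Multiset.replicate i (s, 1680 * x * t)) hx ht hs
      (by simp; omega) ?_ (by simp) (by ring)
    intro p hp
    rcases Multiset.mem_cons.1 hp with rfl | hp
    · ring
    · rw [Multiset.eq_of_mem_replicate hp]; ring

end Pool.Agent.Results.MP_b67aea_co.Four
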